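import Pool.Agent.Q107.IRB.Family

/-!
# The ratio `IR_b / Γ_b` over connected bipartite graphs has supremum two, which is not attained

The definitions `ecc`, `IsBroadcast`, `IsDominating`, `IsMinDominating`, `upperBroadcastNum`,
`privateBoundary` and `IsIrredundant` are in `Pool.Agent.Q107.Broadcast.Defs`; `upperIrrNum` is in
`Pool.Agent.Q107.IRB.General`.
-/

set_option autoImplicit false

namespace Pool.Agent.Results.MP_1867c4_co.BipartiteTwo

open SimpleGraph Finset Q107.Broadcast Q107.IRB

/-- The set of the ratios `IR_b(G) / Γ_b(G)`, `G` a connected bipartite graph with at least two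
vertices. -/
def ratios : Set ℝ :=
  {r | ∃ (V : Type) (_ : Fintype V) (_ : Nontrivial V) (G : SimpleGraph V),
    G.Connected ∧ G.IsBipartite ∧ r = (upperIrrNum G : ℝ) / (upperBroadcastNum G : ℝ)}

/-- `M(𝓑) = 2`, and the supremum is not attained. -/
theorem result : IsLUB ratios 2 ∧ 2 ∉ ratios := by
  have hlt : ∀ r ∈ ratios, r < 2 := by
    rintro r ⟨V, _, _, G, hG, hb, rfl⟩
    have h1 := irr_lt hG hb
    have h2 : (0 : ℝ) < upperBroadcastNum G := by
      have : 0 < upperBroadcastNum G := by omega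
      exact_mod_cast this
    rw [div_lt_iff₀ h2]
    exact_mod_cast h1
  refine ⟨⟨fun r hr => (hlt r hr).le, ?_⟩, fun h => lt_irrefl _ (hlt 2 h)⟩
  intro b hb
  by_contra hcon
  push Not at hcon
  -- a large number of levels
  obtain ⟨k, hk⟩ := exists_nat_gt (4 / (2 - b))
  have hpos : 0 < 2 - b := by linarith
  have hk0 : 0 < k := by
    rcases Nat.eq_zero_or_pos k with h | h
    · subst h
      have := div_pos (by norm_num : (0 : ℝ) < 4) hpos
      simp only [Nat.cast_zero] at hk
      linarith
    · exact h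
  have hn : 0 < (k + 1) * (4 * (k + 3)) := by positivity
  have h1 := Family.le_IR hn hk0
  have h2 := Family.upper (k := k) hn
  have h3 := hb ⟨_, inferInstance, ⟨(true, 0, none), (false, 0, none), by simp⟩,
    Family.G ((k + 1) * (4 * (k + 3))) k, Family.connected hn, Family.bipartite, rfl⟩
  set I := upperIrrNum (Family.G ((k + 1) * (4 * (k + 3))) k)
  set U := upperBroadcastNum (Family.G ((k + 1) * (4 * (k + 3))) k)
  have h1' : (2 * ((k + 1) * (4 * (k + 3))) * k : ℝ) ≤ I := by exact_mod_cast h1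
  have h2' : (U : ℝ) ≤ (k + 1) * ((k + 1) * (4 * (k + 3))) + 4 * (k + 1) * (k + 3) := by
    exact_mod_cast h2
  have hU : (0 : ℝ) < U := by
    have hc : (Family.G ((k + 1) * (4 * (k + 3))) k).Connected := Family.connected hn
    have : Nontrivial (Family.Vt ((k + 1) * (4 * (k + 3))) k) :=
      ⟨(true, 0, none), (false, 0, none), by simp⟩
    have := irr_lt hc Family.bipartite
    have h4 : 0 < U := by
      change 0 < upperBroadcastNum (Family.G ((k + 1) * (4 * (k + 3))) k)
      omega
    exact_mod_cast h4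
  rw [div_le_iff₀ hU] at h3
  have hkr : (0 : ℝ) < k := by exact_mod_cast hk0
  have hb0 : 0 ≤ b := by
    by_contra hneg
    push Not at hneg
    nlinarith [mul_pos hkr hkr]
  rw [div_lt_iff₀ hpos] at hk
  have h5 : (2 * ((k + 1) * (4 * (k + 3))) * k : ℝ) ≤
      b * ((k + 1) * ((k + 1) * (4 * (k + 3))) + 4 * (k + 1) * (k + 3)) :=
    h1'.trans (h3.trans (mul_le_mul_of_nonneg_left h2' hb0))
  have h6 : (0 : ℝ) < (k + 1) * (4 * (k + 3)) := by positivity
  have h7 : (2 * k : ℝ) ≤ b * (k + 2) := by
    have e1 : (2 * ((k + 1) * (4 * (k + 3))) * k : ℝ) =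
      ((k + 1) * (4 * (k + 3))) * (2 * k) := by ring
    have e2 : b * ((k + 1) * ((k + 1) * (4 * (k + 3))) + 4 * (k + 1) * (k + 3)) =
      ((k + 1) * (4 * (k + 3))) * (b * (k + 2)) := by ring
    rw [e1, e2] at h5
    exact le_of_mul_le_mul_left h5 h6
  nlinarith

end Pool.Agent.Results.MP_1867c4_co.BipartiteTwo
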